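import Mathlib

/-!
# Absolutely continuous measures and iterated weak* sequential closures

If `μ` lies in `Seq^α(co Δ_K)` and `ν ≪ μ` then `ν` lies in `Seq^α(lin Δ_K)`.
-/

set_option autoImplicit false

open Set Topology Filter MeasureTheory

namespace Pool.Agent.Results.MP_1e6c42_an.AbsolutelyContinuousClosure

universe u v

variable (K : Type u) [TopologicalSpace K] [CompactSpace K]

/-- The dual space `C(K)*`, identified with the space `M(K)` of signed Radon measures. -/
abbrev Dual : Type u := C(K, ℝ) →L[ℝ] ℝ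

variable {K}

/-- `Seq(A)`: the set of all weak* limits of weak* convergent sequences of elements of `A`
(weak* convergence is convergence at every `f ∈ C(K)`). -/
def seqLim (A : Set (Dual K)) : Set (Dual K) :=
  {Λ | ∃ s : ℕ → Dual K, (∀ n, s n ∈ A) ∧ ∀ f, Tendsto (fun n => s n f) atTop (𝓝 (Λ f))}

/-- The iterated sequential closures `Seq^α(A)`: `Seq^0(A) = A`, `Seq^{α+1}(A) = Seq(Seq^α(A))` and
`Seq^λ(A)` is the union of the `Seq^α(A)`, `α < λ`, for limit ordinals `λ`. -/
noncomputable def seqIter (A : Set (Dual K)) (α : Ordinal.{v}) : Set (Dual K) :=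
  Ordinal.limitRecOn α A (fun _ S => seqLim S) (fun _ _ ih => ⋃ β, ⋃ h, ih β h)

/-- The Dirac measure `δ_x` as an element of the dual of `C(K)`. -/
noncomputable def dirac (x : K) : Dual K :=
  LinearMap.mkContinuous { toFun := fun f => f x
                           map_add' := fun _ _ => rfl
                           map_smul' := fun _ _ => rfl } 1 fun f => by
      rw [one_mul]
      exact f.norm_coe_le_norm x

/-- `Δ_K`, the set of Dirac measures. -/
def Diracs (K : Type u) [TopologicalSpace K] [CompactSpace K] : Set (Dual K) := range dirac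

variable [MeasurableSpace K] [BorelSpace K]

theorem integrable_C (μ : Measure K) [IsFiniteMeasure μ] (f : C(K, ℝ)) : Integrable f μ :=
  (BoundedContinuousFunction.mkOfCompact f).integrable μ

theorem abs_integral_le (μ : Measure K) [IsFiniteMeasure μ] (f : C(K, ℝ)) :
    |∫ x, f x ∂μ| ≤ μ.real univ * ‖f‖ := by
  have := norm_integral_le_of_norm_le_const (μ := μ) (f := f) (C := ‖f‖)
    (ae_of_all _ fun x => f.norm_coe_le_norm x)
  rw [Real.norm_eq_abs] at this
  linarith [mul_comm (μ.real univ) ‖f‖]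

/-- The element `f ↦ ∫ f dμ` of the dual of `C(K)` given by a finite Borel measure. -/
noncomputable def ofMeasure (μ : Measure K) [IsFiniteMeasure μ] : Dual K :=
  LinearMap.mkContinuous { toFun := fun f => ∫ x, f x ∂μ
                           map_add' := fun f g => integral_add (integrable_C μ f) (integrable_C μ g)
                           map_smul' := fun r f => integral_const_mul r f } (μ.real univ)
    fun f => abs_integral_le μ f

/-- The element `f ↦ ∫ f dν = ∫ f dν⁺ - ∫ f dν⁻` of the dual of `C(K)` given by a signed Borel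
measure `ν` with Jordan decomposition `ν = ν⁺ - ν⁻`. -/
noncomputable def ofSigned (ν : SignedMeasure K) : Dual K :=
  ofMeasure ν.toJordanDecomposition.posPart - ofMeasure ν.toJordanDecomposition.negPart

/-- positivity of a functional -/
def Pos (Λ : Dual K) : Prop := ∀ f : C(K, ℝ), 0 ≤ f → 0 ≤ Λ f

omit [MeasurableSpace K] [BorelSpace K] in
theorem Pos.mono {Λ : Dual K} (h : Pos Λ) {f g : C(K, ℝ)} (hfg : f ≤ g) : Λ f ≤ Λ g := by
  have := h (g - f) (sub_nonneg.2 hfg)
  rw [map_sub] at this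
  linarith

omit [MeasurableSpace K] [BorelSpace K] in
theorem Pos.bound {Λ : Dual K} (h : Pos Λ) (d f : C(K, ℝ)) : |Λ (d * f)| ≤ Λ |d| * ‖f‖ := by
  have h1 : d * f ≤ ‖f‖ • |d| := fun x => by
    show d x * f x ≤ ‖f‖ * |d x|
    have := abs_le.1 ((Real.norm_eq_abs _).symm.trans_le (f.norm_coe_le_norm x))
    calc d x * f x ≤ |d x * f x| := le_abs_self _
      _ = |d x| * |f x| := abs_mul _ _
      _ ≤ |d x| * ‖f‖ := mul_le_mul_of_nonneg_left (f.norm_coe_le_norm x) (abs_nonneg _)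
      _ = ‖f‖ * |d x| := mul_comm _ _
  have h2 : -(‖f‖ • |d|) ≤ d * f := fun x => by
    show -(‖f‖ * |d x|) ≤ d x * f x
    have : |d x * f x| ≤ ‖f‖ * |d x| := by
      rw [abs_mul, mul_comm]
      exact mul_le_mul_of_nonneg_right (f.norm_coe_le_norm x) (abs_nonneg _)
    linarith [neg_abs_le (d x * f x)]
  have h3 := h.mono h1
  have h4 := h.mono h2
  rw [map_neg] at h4
  rw [map_smul, smul_eq_mul] at h3 h4
  rw [abs_le]
  constructor <;> linarith

/-- The diagonal argument. -/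
theorem diagonal (μ : Measure K) [IsFiniteMeasure μ] (Λ : ℕ → Dual K) (hpos : ∀ n, Pos (Λ n))
    (hΛ : ∀ f : C(K, ℝ), Tendsto (fun n => Λ n f) atTop (𝓝 (∫ x, f x ∂μ)))
    (g : K → ℝ) (hg : Integrable g μ)
    (happ : ∀ ε : ℝ, 0 < ε → ∃ h : C(K, ℝ), ∫ x, |g x - h x| ∂μ ≤ ε) :
    ∃ G : ℕ → C(K, ℝ), ∀ f : C(K, ℝ),
      Tendsto (fun n => Λ n (G n * f)) atTop (𝓝 (∫ x, g x * f x ∂μ)) := by
  classical
  have hh : ∀ k : ℕ, ∃ h : C(K, ℝ), ∫ x, |g x - h x| ∂μ ≤ (1 / 2 : ℝ) ^ k := fun k =>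
    happ _ (by positivity)
  choose h hh using hh
  have hd : ∀ k, ∫ x, |h (k + 1) - h k| x ∂μ ≤ 2 * (1 / 2 : ℝ) ^ k := by
    intro k
    have e1 : ∀ x, |h (k + 1) - h k| x ≤ |g x - h (k + 1) x| + |g x - h k x| := by
      intro x
      show |h (k + 1) x - h k x| ≤ _
      have := abs_sub (h (k + 1) x - g x) (h k x - g x)
      rw [sub_sub_sub_cancel_right, abs_sub_comm (h (k + 1) x) (g x),
        abs_sub_comm (h k x) (g x)] at this
      exact this
    have i1 : Integrable (fun x => |g x - h (k + 1) x|) μ := (hg.sub (integrable_C μ _)).abs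
    have i2 : Integrable (fun x => |g x - h k x|) μ := (hg.sub (integrable_C μ _)).abs
    have e2 := integral_mono (integrable_C μ |h (k + 1) - h k|) (i1.add i2) e1
    have e3 : ∫ x, ((fun x => |g x - h (k + 1) x|) + fun x => |g x - h k x|) x ∂μ =
        ∫ x, |g x - h (k + 1) x| ∂μ + ∫ x, |g x - h k x| ∂μ := integral_add i1 i2
    rw [e3] at e2
    have e4 := hh k
    have e5 := hh (k + 1)
    have e6 : (1 / 2 : ℝ) ^ (k + 1) ≤ (1 / 2 : ℝ) ^ k :=
      pow_le_pow_of_le_one (by norm_num) (by norm_num) (Nat.le_succ k)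
    linarith
  have hN : ∀ k, ∃ N : ℕ, ∀ n, N ≤ n → Λ n |h (k + 1) - h k| ≤ 3 * (1 / 2 : ℝ) ^ k := by
    intro k
    have h1 : ∫ x, |h (k + 1) - h k| x ∂μ < 3 * (1 / 2 : ℝ) ^ k := by
      have : (0 : ℝ) < (1 / 2 : ℝ) ^ k := by positivity
      linarith [hd k]
    obtain ⟨N, hN⟩ := eventually_atTop.1 ((hΛ _).eventually_lt_const h1)
    exact ⟨N, fun n hn => (hN n hn).le⟩
  choose N hN using hN
  let P : ℕ → ℕ → Prop := fun n m => ∀ k, k < m → N k ≤ n
  let m : ℕ → ℕ := fun n => Nat.findGreatest (P n) n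
  have hm : ∀ n, P n (m n) := fun n =>
    Nat.findGreatest_spec (P := P n) (Nat.zero_le n) (fun k hk => absurd hk (Nat.not_lt_zero k))
  have hm' : ∀ j, ∀ᶠ n in atTop, j ≤ m n := by
    intro j
    refine eventually_atTop.2 ⟨j + ∑ k ∈ Finset.range j, N k, fun n hn => ?_⟩
    refine Nat.le_findGreatest (by omega) fun k hk => ?_
    have : N k ≤ ∑ k ∈ Finset.range j, N k :=
      Finset.single_le_sum (f := N) (fun _ _ => Nat.zero_le _) (Finset.mem_range.2 hk)
    omega
  have htel : ∀ (f : C(K, ℝ)) (n j : ℕ), ∀ l, j ≤ l → l ≤ m n →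
      |Λ n (h l * f) - Λ n (h j * f)| ≤ 6 * ((1 / 2 : ℝ) ^ j - (1 / 2 : ℝ) ^ l) * ‖f‖ := by
    intro f n j l hjl
    induction l, hjl using Nat.le_induction with
    | base => intro _; simp
    | succ l hjl ih =>
      intro hl
      have h1 := ih (by omega)
      have h2 := (hpos n).bound (h (l + 1) - h l) f
      have h3 := hN l n (hm n l (by omega))
      have h4 : Λ n ((h (l + 1) - h l) * f) = Λ n (h (l + 1) * f) - Λ n (h l * f) := by
        rw [sub_mul, map_sub]
      rw [h4] at h2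
      have h5 : |Λ n (h (l + 1) * f) - Λ n (h l * f)| ≤ 3 * (1 / 2 : ℝ) ^ l * ‖f‖ :=
        h2.trans (mul_le_mul_of_nonneg_right h3 (norm_nonneg f))
      have h6 := abs_add_le (Λ n (h (l + 1) * f) - Λ n (h l * f)) (Λ n (h l * f) - Λ n (h j * f))
      rw [sub_add_sub_cancel] at h6
      have h7 : (1 / 2 : ℝ) ^ (l + 1) = (1 / 2) ^ l / 2 := by rw [pow_succ]; ring
      rw [h7]
      nlinarith [norm_nonneg f]
  refine ⟨fun n => h (m n), fun f => ?_⟩
  rw [Metric.tendsto_atTop]
  intro ε hε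
  obtain ⟨j, hj⟩ : ∃ j : ℕ, 7 * (1 / 2 : ℝ) ^ j * ‖f‖ < ε / 2 := by
    have h1 : Tendsto (fun j : ℕ => 7 * (1 / 2 : ℝ) ^ j * ‖f‖) atTop (𝓝 (7 * 0 * ‖f‖)) :=
      ((tendsto_pow_atTop_nhds_zero_of_lt_one (by norm_num) (by norm_num)).const_mul 7).mul_const _
    rw [mul_zero, zero_mul] at h1
    exact ((h1.eventually_lt_const (half_pos hε)).exists)
  have hlim := (Metric.tendsto_atTop.1 (hΛ (h j * f))) (ε / 2) (half_pos hε)
  obtain ⟨N1, hN1⟩ := hlim
  obtain ⟨N2, hN2⟩ := eventually_atTop.1 (hm' j)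
  refine ⟨max N1 N2, fun n hn => ?_⟩
  have a1 := hN1 n (le_of_max_le_left hn)
  have a2 := htel f n j (m n) (hN2 n (le_of_max_le_right hn)) le_rfl
  have a3 : |∫ x, (h j * f) x ∂μ - ∫ x, g x * f x ∂μ| ≤ (1 / 2 : ℝ) ^ j * ‖f‖ := by
    have hgf : Integrable (fun x => g x * f x) μ := by
      refine hg.mul_bdd (c := ‖f‖) f.continuous.aestronglyMeasurable ?_
      exact ae_of_all _ fun x => f.norm_coe_le_norm x
    rw [← integral_sub (integrable_C μ (h j * f)) hgf]
    have i2 : Integrable (fun x => |g x - h j x| * ‖f‖) μ :=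
      ((hg.sub (integrable_C μ _)).abs).mul_const _
    calc |∫ x, ((h j * f) x - g x * f x) ∂μ| ≤ ∫ x, |(h j * f) x - g x * f x| ∂μ :=
          abs_integral_le_integral_abs
      _ ≤ ∫ x, |g x - h j x| * ‖f‖ ∂μ := by
          refine integral_mono ((integrable_C μ (h j * f)).sub hgf).abs i2 fun x => ?_
          show |h j x * f x - g x * f x| ≤ |g x - h j x| * ‖f‖
          rw [← sub_mul, abs_mul, abs_sub_comm]
          exact mul_le_mul_of_nonneg_left (f.norm_coe_le_norm x) (abs_nonneg _)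
      _ = (∫ x, |g x - h j x| ∂μ) * ‖f‖ := integral_mul_const _ _
      _ ≤ (1 / 2 : ℝ) ^ j * ‖f‖ := mul_le_mul_of_nonneg_right (hh j) (norm_nonneg f)
  rw [Real.dist_eq] at a1 ⊢
  have a4 : (0 : ℝ) < (1 / 2 : ℝ) ^ (m n) := by positivity
  have b1 := abs_add_le (Λ n (h (m n) * f) - Λ n (h j * f)) (Λ n (h j * f) - ∫ x, (h j * f) x ∂μ)
  have b2 := abs_add_le (Λ n (h (m n) * f) - ∫ x, (h j * f) x ∂μ)
    (∫ x, (h j * f) x ∂μ - ∫ x, g x * f x ∂μ)
  rw [sub_add_sub_cancel] at b1 b2
  nlinarith [norm_nonneg f]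

omit [MeasurableSpace K] [BorelSpace K] in
theorem seqIter_zero (A : Set (Dual K)) : seqIter A (0 : Ordinal.{v}) = A :=
  Ordinal.limitRecOn_zero ..

omit [MeasurableSpace K] [BorelSpace K] in
theorem seqIter_add_one (A : Set (Dual K)) (α : Ordinal.{v}) :
    seqIter A (α + 1) = seqLim (seqIter A α) :=
  Ordinal.limitRecOn_add_one ..

omit [MeasurableSpace K] [BorelSpace K] in
theorem seqIter_limit (A : Set (Dual K)) (α : Ordinal.{v}) (hα : Order.IsSuccLimit α) :
    seqIter A α = ⋃ β, ⋃ _ : β < α, seqIter A β :=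
  Ordinal.limitRecOn_limit _ _ _ _ hα

omit [MeasurableSpace K] [BorelSpace K] in
theorem pos_of_mem (α : Ordinal.{v}) :
    ∀ Λ ∈ seqIter (convexHull ℝ (Diracs K)) α, Pos Λ := by
  induction α using Ordinal.limitRecOn with
  | zero =>
    intro Λ hΛ f hf
    rw [seqIter_zero] at hΛ
    have h1 : convexHull ℝ (Diracs K) ⊆ {Λ : Dual K | 0 ≤ Λ f} := by
      refine convexHull_min ?_ ?_
      · rintro _ ⟨x, rfl⟩
        exact hf x
      · intro a ha b hb s t hs ht _
        show 0 ≤ s * a f + t * b f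
        exact add_nonneg (mul_nonneg hs ha) (mul_nonneg ht hb)
    exact h1 hΛ
  | add_one α ih =>
    intro Λ hΛ f hf
    rw [seqIter_add_one] at hΛ
    obtain ⟨s, hs, hlim⟩ := hΛ
    exact ge_of_tendsto' (hlim f) fun n => ih _ (hs n) f hf
  | limit α hα ih =>
    intro Λ hΛ
    rw [seqIter_limit _ _ hα, mem_iUnion₂] at hΛ
    obtain ⟨β, hβ, h⟩ := hΛ
    exact ih β hβ Λ h

omit [MeasurableSpace K] [BorelSpace K] in
theorem hull_subset_span : convexHull ℝ (Diracs K) ⊆
    (Submodule.span ℝ (Diracs K) : Set (Dual K)) :=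
  convexHull_min Submodule.subset_span (Submodule.convex _)

/-- the functional `f ↦ Λ (G f)` -/
noncomputable def mulF (G : C(K, ℝ)) (Λ : Dual K) : Dual K :=
  Λ.comp (ContinuousLinearMap.mul ℝ C(K, ℝ) G)

omit [MeasurableSpace K] [BorelSpace K] in
theorem mulF_apply (G : C(K, ℝ)) (Λ : Dual K) (f : C(K, ℝ)) : mulF G Λ f = Λ (G * f) := rfl

omit [MeasurableSpace K] [BorelSpace K] in
theorem mulF_dirac (G : C(K, ℝ)) (x : K) : mulF G (dirac x) = G x • dirac x := by
  ext f
  rfl

omit [MeasurableSpace K] [BorelSpace K] in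
theorem mulF_mem_span (G : C(K, ℝ)) (T : Set (Dual K)) (hT : T ⊆ Diracs K) :
    ∀ Λ ∈ Submodule.span ℝ T, mulF G Λ ∈ Submodule.span ℝ T := by
  intro Λ hΛ
  induction hΛ using Submodule.span_induction with
  | mem x hx =>
    obtain ⟨y, rfl⟩ := hT hx
    rw [mulF_dirac]
    exact Submodule.smul_mem _ _ (Submodule.subset_span hx)
  | zero =>
    have : mulF G (0 : Dual K) = 0 := by ext f; rfl
    rw [this]
    exact Submodule.zero_mem _
  | add x y _ _ hx hy =>
    have : mulF G (x + y) = mulF G x + mulF G y := by ext f; rfl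
    rw [this]
    exact Submodule.add_mem _ hx hy
  | smul a x _ hx =>
    have : mulF G (a • x) = a • mulF G x := by ext f; rfl
    rw [this]
    exact Submodule.smul_mem _ _ hx

omit [MeasurableSpace K] [BorelSpace K] in
theorem mulF_mem (G : C(K, ℝ)) (α : Ordinal.{v}) :
    ∀ Λ ∈ seqIter (convexHull ℝ (Diracs K)) α,
      mulF G Λ ∈ seqIter (Submodule.span ℝ (Diracs K) : Set (Dual K)) α := by
  induction α using Ordinal.limitRecOn with
  | zero =>
    intro Λ hΛ
    rw [seqIter_zero] at hΛ ⊢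
    exact mulF_mem_span G _ subset_rfl _ (hull_subset_span hΛ)
  | add_one α ih =>
    intro Λ hΛ
    rw [seqIter_add_one] at hΛ ⊢
    obtain ⟨s, hs, hlim⟩ := hΛ
    exact ⟨fun n => mulF G (s n), fun n => ih _ (hs n), fun f => hlim (G * f)⟩
  | limit α hα ih =>
    intro Λ hΛ
    rw [seqIter_limit _ _ hα, mem_iUnion₂] at hΛ ⊢
    obtain ⟨β, hβ, h⟩ := hΛ
    exact ⟨β, hβ, ih β hβ Λ h⟩

omit [MeasurableSpace K] [BorelSpace K] in
theorem finite_closed (V : Submodule ℝ (Dual K)) [FiniteDimensional ℝ V] (s : ℕ → Dual K)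
    (hs : ∀ n, s n ∈ V) (Λ : Dual K) (h : ∀ f, Tendsto (fun n => s n f) atTop (𝓝 (Λ f))) :
    Λ ∈ V := by
  let ι : Dual K →ₗ[ℝ] (C(K, ℝ) → ℝ) :=
    { toFun := fun Λ f => Λ f
      map_add' := fun _ _ => rfl
      map_smul' := fun _ _ => rfl }
  have hι : Function.Injective ι := fun a b hab => ContinuousLinearMap.ext fun f => congrFun hab f
  have hcl : IsClosed ((V.map ι : Submodule ℝ (C(K, ℝ) → ℝ)) : Set (C(K, ℝ) → ℝ)) :=
    Submodule.closed_of_finiteDimensional _
  have hmem : ι Λ ∈ V.map ι := by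
    refine hcl.mem_of_tendsto (f := fun n => ι (s n)) (b := atTop) (tendsto_pi_nhds.2 h)
      (Eventually.of_forall fun n => Submodule.mem_map_of_mem (hs n))
  obtain ⟨Λ', hΛ', he⟩ := Submodule.mem_map.1 hmem
  rwa [← hι he]

theorem key (μ : Measure K) [IsFiniteMeasure μ] (g : K → ℝ) (hg : Integrable g μ)
    (happ : ∀ ε : ℝ, 0 < ε → ∃ h : C(K, ℝ), ∫ x, |g x - h x| ∂μ ≤ ε) (α : Ordinal.{v})
    (hμ : ofMeasure μ ∈ seqIter (convexHull ℝ (Diracs K)) α) (Φ : Dual K)
    (hΦ : ∀ f : C(K, ℝ), Φ f = ∫ x, g x * f x ∂μ) :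
    Φ ∈ seqIter (Submodule.span ℝ (Diracs K) : Set (Dual K)) α := by
  induction α using Ordinal.limitRecOn with
  | zero =>
    have hpos := pos_of_mem 0 _ hμ
    rw [seqIter_zero] at hμ ⊢
    obtain ⟨G, hG⟩ := diagonal μ (fun _ => ofMeasure μ) (fun _ => hpos)
      (fun f => tendsto_const_nhds) g hg happ
    obtain ⟨T, hT, hμT⟩ := Submodule.mem_span_finite_of_mem_span (hull_subset_span hμ)
    have hfd : FiniteDimensional ℝ (Submodule.span ℝ (T : Set (Dual K))) := inferInstance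
    refine Submodule.span_mono hT (finite_closed (Submodule.span ℝ (T : Set (Dual K)))
      (fun n => mulF (G n) (ofMeasure μ)) (fun n => mulF_mem_span _ _ hT _ hμT) Φ fun f => ?_)
    rw [hΦ]
    exact hG f
  | add_one α _ =>
    rw [seqIter_add_one] at hμ ⊢
    obtain ⟨s, hs, hlim⟩ := hμ
    obtain ⟨G, hG⟩ := diagonal μ s (fun n => pos_of_mem α _ (hs n)) hlim g hg happ
    refine ⟨fun n => mulF (G n) (s n), fun n => mulF_mem _ _ _ (hs n), fun f => ?_⟩
    rw [hΦ]
    exact hG f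
  | limit α hα ih =>
    rw [seqIter_limit _ _ hα, mem_iUnion₂] at hμ ⊢
    obtain ⟨β, hβ, h⟩ := hμ
    exact ⟨β, hβ, ih β hβ h⟩

/-- **Positive answer to Q1**: if the Radon probability measure `μ` belongs to `Seq^α(co Δ_K)` and
the signed measure `ν` is absolutely continuous with respect to `μ`, then `ν` belongs to
`Seq^α(lin Δ_K)`. -/
theorem result (K : Type u) [TopologicalSpace K] [CompactSpace K] [T2Space K] [MeasurableSpace K]
    [BorelSpace K] (α : Ordinal.{v}) (μ : Measure K) [IsProbabilityMeasure μ] [μ.Regular]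
    (hμ : ofMeasure μ ∈ seqIter (convexHull ℝ (Diracs K)) α) (ν : SignedMeasure K)
    (hν : ∀ B : Set K, MeasurableSet B → μ B = 0 → ν.totalVariation B = 0) :
    ofSigned ν ∈ seqIter (Submodule.span ℝ (Diracs K) : Set (Dual K)) α := by
  have hac : ν.totalVariation ≪ μ := Measure.AbsolutelyContinuous.mk fun B hB h => hν B hB h
  obtain ⟨hp, hn⟩ := (SignedMeasure.totalVariation_absolutelyContinuous_iff ν μ).1 hac
  set p := ν.toJordanDecomposition.posPart with hp'
  set n := ν.toJordanDecomposition.negPart with hn'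
  have i1 : Integrable (fun x => (p.rnDeriv μ x).toReal) μ := Measure.integrable_toReal_rnDeriv
  have i2 : Integrable (fun x => (n.rnDeriv μ x).toReal) μ := Measure.integrable_toReal_rnDeriv
  refine key μ (fun x => (p.rnDeriv μ x).toReal - (n.rnDeriv μ x).toReal) (i1.sub i2) ?_ α hμ _ ?_
  · intro ε hε
    obtain ⟨h, hh, -⟩ := (i1.sub i2).exists_boundedContinuous_integral_sub_le hε
    exact ⟨h.toContinuousMap, hh⟩
  · intro f
    show ∫ x, f x ∂p - ∫ x, f x ∂n = _
    rw [← integral_rnDeriv_smul hp (f := f), ← integral_rnDeriv_smul hn (f := f)]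
    have j1 : Integrable (fun x => (p.rnDeriv μ x).toReal • f x) μ :=
      i1.mul_bdd (c := ‖f‖) f.continuous.aestronglyMeasurable
        (ae_of_all _ fun x => f.norm_coe_le_norm x)
    have j2 : Integrable (fun x => (n.rnDeriv μ x).toReal • f x) μ :=
      i2.mul_bdd (c := ‖f‖) f.continuous.aestronglyMeasurable
        (ae_of_all _ fun x => f.norm_coe_le_norm x)
    rw [← integral_sub j1 j2]
    refine integral_congr_ae (ae_of_all _ fun x => ?_)
    simp only [smul_eq_mul]
    ring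

end Pool.Agent.Results.MP_1e6c42_an.AbsolutelyContinuousClosure
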